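import Pool.Agent.Helper73.OB.Words
import Pool.Agent.Helper73.OB.GoalsB

set_option autoImplicit false

open MeasureTheory ProbabilityTheory

namespace Pool.Agent.Helper64.OB

open Pool.Agent.Helper73.OB

/-- The coordinates of the field of a Bernoulli label map are independent. -/
theorem cyl_iIndep {S : Type} {β : S → S} {X L : Type} [MeasurableSpace X] [MeasurableSpace L]
    {μ : Measure X} [IsProbabilityMeasure μ] {f : S → X → X} (hf : Sys β μ f) {law : Measure L}
    [IsProbabilityMeasure law] {l : X → L} (hl : Bnl β μ f l law) :
    iIndepFun (fun (w : RW β) (x : X) => l (run f w.1 x)) μ := by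
  have hm : ∀ w : RW β, Measurable (fun x : X => l (run f w.1 x)) := fun w =>
    hl.1.comp (hf.run_mp w.1).measurable
  rw [iIndepFun_iff_map_fun_eq_infinitePi_map hm]
  have h1 := hl.2.map_eq
  have h2 : ∀ w : RW β, μ.map (fun x => l (run f w.1 x)) = law := by
    intro w
    have h3 : (fun x : X => l (run f w.1 x)) = (fun ω : RW β → L => ω w) ∘ field β f l := rfl
    rw [h3, ← Measure.map_map (measurable_pi_apply w) hl.2.measurable, h1]
    exact Measure.infinitePi_map_eval _ w
  simp_rw [h2]
  exact h1

open Classical in
/-- The coordinates seen by a cylinder function with base `Q` after the word `u`. -/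
noncomputable def coords {S : Type} (β : S → S) (Q : Finset (List S)) (u : List S) :
    Finset (RW β) :=
  Q.image fun w => (⟨red β (u ++ w), red_Red β _⟩ : RW β)

theorem mem_coords {S : Type} {β : S → S} {Q : Finset (List S)} {u w : List S} (hw : w ∈ Q) :
    (⟨red β (u ++ w), red_Red β _⟩ : RW β) ∈ coords β Q u := by
  classical
  exact Finset.mem_image_of_mem _ hw

/-- The cylinder function in terms of these coordinates. -/
noncomputable def cylF {S L : Type} (β : S → S) (Q : Finset (List S)) (u : List S)
    (Φ : ({w : List S | w ∈ Q} → L) → ℝ) (v : coords β Q u → L) : ℝ :=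
  Φ fun w => v ⟨⟨red β (u ++ w.1), red_Red β _⟩, mem_coords w.2⟩

theorem cylF_meas {S L : Type} [MeasurableSpace L] {β : S → S} {Q : Finset (List S)} {u : List S}
    {Φ : ({w : List S | w ∈ Q} → L) → ℝ} (hΦ : Measurable Φ) :
    Measurable (cylF β Q u Φ) := by
  refine hΦ.comp ?_
  exact measurable_pi_lambda _ fun w => measurable_pi_apply _

open Classical in
/-- The exceptional reduced words. -/
noncomputable def exc {S : Type} (β : S → S) (Q : Finset (List S)) : Finset (List S) :=
  (Q ×ˢ Q).image fun q => red β (q.1 ++ invw β q.2)

theorem exc_red {S : Type} {β : S → S} {Q : Finset (List S)} {h : List S} (hh : h ∈ exc β Q) :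
    Red β h := by
  classical
  obtain ⟨q, _, rfl⟩ := Finset.mem_image.1 hh
  exact red_Red β _

theorem coords_disjoint {S : Type} {β : S → S} (hβ : ∀ s, β (β s) = s) {Q : Finset (List S)}
    (hQ : ∀ w ∈ Q, Red β w) {u : List S} (hu : red β u ∉ exc β Q) :
    Disjoint (coords β Q u) (coords β Q []) := by
  classical
  rw [Finset.disjoint_left]
  intro a ha hb
  obtain ⟨w, hw, rfl⟩ := Finset.mem_image.1 ha
  obtain ⟨w', hw', h⟩ := Finset.mem_image.1 hb
  have h1 : red β ([] ++ w') = red β (u ++ w) := congrArg Subtype.val h
  rw [List.nil_append, red_of_Red (hQ w' hw')] at h1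
  apply hu
  refine Finset.mem_image.2 ⟨(w', w), Finset.mem_product.2 ⟨hw', hw⟩, ?_⟩
  simp only
  rw [h1]
  have key : ∀ a b : List S, red β (red β a ++ b) = red β (a ++ b) := by
    intro a b
    induction a with
    | nil => rfl
    | cons s a ih =>
      rw [red_cons, List.cons_append, red_cons, ← ih]
      unfold ls
      split_ifs with h2 h3 h3
      · -- the first letter cancels
        cases hr : red β a with
        | nil => rw [hr] at h2; simp at h2
        | cons c r =>
          rw [hr] at h2 h3
          have hc : c = β s := by simpa using h2
          subst hc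
          simp only [List.tail_cons, List.cons_append]
          rw [List.cons_append, red_cons] at h3
          rw [red_cons]
          unfold ls
          unfold ls at h3
          split_ifs with h4
          · rw [if_pos h4] at h3
            -- contradiction or identity
            cases hrb : red β (r ++ b) with
            | nil => rw [hrb] at h4; simp at h4
            | cons d t =>
              rw [hrb] at h4 h3
              have hd : d = β (β s) := by simpa using h4
              have hred : Red β (d :: t) := hrb ▸ red_Red β _
              cases t with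
              | nil => simp at h3
              | cons e t' =>
                have he : e = β s := by simpa using h3
                have := (List.isChain_cons_cons.1 hred).1
                rw [hd, hβ] at this
                exact absurd he this
          · simp
      · cases hr : red β a with
        | nil => rw [hr] at h2; simp at h2
        | cons c r =>
          rw [hr] at h2 h3
          have hc : c = β s := by simpa using h2
          subst hc
          simp only [List.tail_cons, List.cons_append]
          rw [List.cons_append, red_cons] at h3
          rw [red_cons]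
          unfold ls
          unfold ls at h3
          split_ifs with h4
          · cases hrb : red β (r ++ b) with
            | nil => rw [hrb] at h4; simp at h4
            | cons d t =>
              rw [hrb] at h4
              have hd : d = β (β s) := by simpa using h4
              rw [hβ] at hd
              rw [hd]
              simp
          · rw [if_neg h4] at h3
            simp at h3
      · rw [List.cons_append, red_cons]
        unfold ls
        rw [if_pos h3]
      · rw [List.cons_append, red_cons]
        unfold ls
        rw [if_neg h3]
  rw [key, List.append_assoc]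
  have h5 : red β (u ++ (w ++ invw β w)) = red β u := by
    have h6 := red_append_invw hβ w ([] : List S)
    rw [List.append_nil, red_nil] at h6
    rw [red_append, h6, List.append_nil]
  exact h5

theorem cyl (hP1 : S_P1) : S_CYL := by
  classical
  intro S _ β hβ hS X _ μ _ f hf L _ law _ l hl Q hQ φ hφ hb hmean
  obtain ⟨b, hb⟩ := hb
  rw [sig_eq] at hφ
  obtain ⟨Φ, hΦ, hφΦ⟩ := hφ.exists_eq_measurable_comp
  -- the cylinder function in the coordinates
  have hval : ∀ (u : List S) (x : X), φ (run f u x) =
      cylF β Q u Φ (fun i : coords β Q u => l (run f i.1.1 x)) := by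
    intro u x
    rw [hφΦ]
    simp only [Function.comp_apply, cylF]
    congr 1
    funext w
    rw [run_red hf.inv, run_append]
  have hcm : ∀ w : RW β, Measurable (fun x : X => l (run f w.1 x)) := fun w =>
    hl.1.comp (hf.run_mp w.1).measurable
  have hvec : ∀ u : List S,
      Measurable (fun (x : X) (i : coords β Q u) => l (run f i.1.1 x)) := fun u =>
    measurable_pi_lambda _ fun i => hcm i.1
  have hmeas : ∀ u : List S, Measurable (fun x => φ (run f u x)) := by
    intro u
    have : (fun x => φ (run f u x)) =
        cylF β Q u Φ ∘ fun (x : X) (i : coords β Q u) => l (run f i.1.1 x) := by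
      funext x
      exact hval u x
    rw [this]
    exact (cylF_meas hΦ).comp (hvec u)
  have hzero : ∀ u : List S, red β u ∉ exc β Q → ∫ x, φ (run f u x) * φ x ∂μ = 0 := by
    intro u hu
    have h1 := (cyl_iIndep hf hl).indepFun_finset (coords β Q u) (coords β Q [])
      (coords_disjoint hβ hQ hu) hcm
    have h2 := h1.comp (cylF_meas (u := u) hΦ) (cylF_meas (u := []) hΦ)
    have e1 : cylF β Q u Φ ∘ (fun (x : X) (i : coords β Q u) => l (run f i.1.1 x)) =
        fun x => φ (run f u x) := by
      funext x
      exact (hval u x).symm
    have e2 : cylF β Q [] Φ ∘ (fun (x : X) (i : coords β Q []) => l (run f i.1.1 x)) =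
        fun x => φ x := by
      funext x
      exact (hval [] x).symm
    rw [e1, e2] at h2
    have h3 := h2.integral_fun_mul_eq_mul_integral (hmeas u).aestronglyMeasurable
      (hmeas []).aestronglyMeasurable
    rw [h3, hmean, mul_zero]
  have hbd : ∀ u : List S, |∫ x, φ (run f u x) * φ x ∂μ| ≤ b * b := by
    intro u
    have h1 := norm_integral_le_of_norm_le_const (μ := μ) (f := fun x => φ (run f u x) * φ x)
      (C := b * b) (Filter.Eventually.of_forall fun x => by
        rw [Real.norm_eq_abs, abs_mul]
        exact mul_le_mul (hb _) (hb _) (abs_nonneg _) (le_trans (abs_nonneg _) (hb x)))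
    simpa using h1
  have hbb : 0 ≤ b * b := mul_self_nonneg b
  set m : ℝ := Real.sqrt (Fintype.card S - 1) with hm
  refine ⟨b * b * ∑ h ∈ exc β Q, m ^ h.length, ?_⟩
  intro n
  calc |∑ u : Fin n → S, ∫ x, φ (run f (List.ofFn u) x) * φ x ∂μ|
      ≤ ∑ u : Fin n → S, |∫ x, φ (run f (List.ofFn u) x) * φ x ∂μ| :=
        Finset.abs_sum_le_sum_abs _ _
    _ ≤ ∑ u : Fin n → S, ∑ h ∈ exc β Q, (if red β (List.ofFn u) = h then b * b else 0) := by
        refine Finset.sum_le_sum fun u _ => ?_
        rw [Finset.sum_ite_eq]
        split_ifs with h
        · exact hbd _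
        · rw [hzero _ h, abs_zero]
    _ = ∑ h ∈ exc β Q, ∑ u : Fin n → S, (if red β (List.ofFn u) = h then b * b else 0) :=
        Finset.sum_comm
    _ ≤ ∑ h ∈ exc β Q, b * b * ((2 * m) ^ n * m ^ h.length) := by
        refine Finset.sum_le_sum fun h hh => ?_
        have h1 := hP1 S β hβ hS n h (exc_red hh)
        have h2 : ∑ u : Fin n → S, (if red β (List.ofFn u) = h then b * b else 0) =
            b * b * (Nat.card {u : Fin n → S // red β (List.ofFn u) = h} : ℝ) := by
          rw [Nat.card_eq_fintype_card, Fintype.card_subtype, ← Finset.sum_filter,
            Finset.sum_const, nsmul_eq_mul, mul_comm]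
        rw [h2]
        exact mul_le_mul_of_nonneg_left h1 hbb
    _ = b * b * (∑ h ∈ exc β Q, m ^ h.length) * (2 * m) ^ n := by
        rw [← Finset.mul_sum, ← Finset.mul_sum]
        ring

end Pool.Agent.Helper64.OB
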